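import Pool.Agent.Helper79.KW.Base

/-! Piece PT1 of MP_715b63_an: greedy exhaustion of a finite graph by small connected pieces. -/

namespace Pool.Agent.KW

namespace PT1

open Classical in
/-- a finite set which has no nontrivial subset closed under adjacency is connected by lazy walks -/
theorem connWithin_of_closed {F : Type*} (adj : F → F → Prop) (S : ℕ) (E : Finset F)
    (hcard : E.card ≤ S)
    (hconn : ∀ E1 ⊆ E, E1.Nonempty → (∀ x ∈ E1, ∀ y ∈ E, adj x y → y ∈ E1) → E1 = E) :
    ConnWithin adj S E := by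
  intro g hg
  let A : ℕ → Finset F := fun j => E.filter fun x => ∃ p : ℕ → F, p 0 = g ∧ p j = x ∧
    (∀ i, p i ∈ E) ∧ ∀ i < j, p i = p (i + 1) ∨ adj (p i) (p (i + 1))
  have hmem : ∀ j x, x ∈ A j ↔ x ∈ E ∧ ∃ p : ℕ → F, p 0 = g ∧ p j = x ∧
    (∀ i, p i ∈ E) ∧ ∀ i < j, p i = p (i + 1) ∨ adj (p i) (p (i + 1)) := by
    intro j x
    simp only [A, Finset.mem_filter]
  have hsub : ∀ j, A j ⊆ E := fun j => Finset.filter_subset _ _
  have hstep : ∀ j x y, x ∈ A j → y ∈ E → (x = y ∨ adj x y) → y ∈ A (j + 1) := by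
    intro j x y hx hy hxy
    obtain ⟨_, p, hp0, hpj, hpE, hp⟩ := (hmem j x).1 hx
    refine (hmem (j + 1) y).2 ⟨hy, fun i => if i ≤ j then p i else y, ?_, ?_, ?_, ?_⟩
    · simp [hp0]
    · simp
    · intro i
      by_cases hi : i ≤ j
      · simp only [hi, if_true]; exact hpE i
      · simp only [hi, if_false]; exact hy
    · intro i hi
      have hi' : i ≤ j := by omega
      rcases hi'.lt_or_eq with h | h
      · have h1 : i + 1 ≤ j := h
        simp only [hi', h1, if_true]
        exact hp i h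
      · subst h
        have h1 : ¬ i + 1 ≤ i := by omega
        simp only [le_refl, if_true, h1, if_false, hpj]
        exact hxy
  have hmono : ∀ j, A j ⊆ A (j + 1) := fun j x hx =>
    hstep j x x hx (hsub j hx) (Or.inl rfl)
  have hg0 : g ∈ A 0 :=
    (hmem 0 g).2 ⟨hg, fun _ => g, rfl, rfl, fun _ => hg, fun i hi => absurd hi (by omega)⟩
  have hgj : ∀ j, g ∈ A j := by
    intro j
    induction j with
    | zero => exact hg0
    | succ j ih => exact hmono j ih
  have hclaim : ∀ j, A j = E ∨ j + 1 ≤ (A j).card := by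
    intro j
    induction j with
    | zero =>
      right
      exact Finset.card_pos.2 ⟨g, hg0⟩
    | succ j ih =>
      rcases ih with h | h
      · left
        exact (hsub _).antisymm (h ▸ hmono j)
      · by_cases hE : A (j + 1) = A j
        · left
          rw [hE]
          apply hconn _ (hsub j) ⟨g, hgj j⟩
          intro x hx y hy hxy
          rw [← hE]
          exact hstep j x y hx hy (Or.inr hxy)
        · right
          have h1 : A j ⊂ A (j + 1) := (hmono j).ssubset_of_ne (Ne.symm hE)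
          have h2 := Finset.card_lt_card h1
          omega
  have hS : A S = E := by
    rcases hclaim S with h | h
    · exact h
    · have := Finset.card_le_card (hsub S)
      omega
  intro g' hg'
  rw [← hS] at hg'
  obtain ⟨_, p, hp0, hpj, hpE, hp⟩ := (hmem S g').1 hg'
  exact ⟨p, hp0, hpj, hpE, hp⟩

open Classical in
/-- a connected piece with small boundary -/
theorem exists_connected {F : Type*} (adj : F → F → Prop)
    (hsymm : ∀ a b, adj a b → adj b a) (S : ℕ) (ε : ℝ) (F' : Finset F) (μ : F → ℝ)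
    (h : ∃ E ⊆ F', E.Nonempty ∧ E.card ≤ S ∧
        ∑ g ∈ E, ∑ g' ∈ (F' \ E).filter (fun g' => adj g g'), min (μ g) (μ g')
          < ε * ∑ g ∈ E, μ g) :
    ∃ E ⊆ F', E.Nonempty ∧ E.card ≤ S ∧ ConnWithin adj S E ∧
        ∑ g ∈ E, ∑ g' ∈ (F' \ E).filter (fun g' => adj g g'), min (μ g) (μ g')
          < ε * ∑ g ∈ E, μ g := by
  let s := F'.powerset.filter fun E => E.Nonempty ∧ E.card ≤ S ∧
        ∑ g ∈ E, ∑ g' ∈ (F' \ E).filter (fun g' => adj g g'), min (μ g) (μ g')
          < ε * ∑ g ∈ E, μ g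
  have hs : ∀ E, E ∈ s ↔ E ⊆ F' ∧ E.Nonempty ∧ E.card ≤ S ∧
        ∑ g ∈ E, ∑ g' ∈ (F' \ E).filter (fun g' => adj g g'), min (μ g) (μ g')
          < ε * ∑ g ∈ E, μ g := by
    intro E
    simp only [s, Finset.mem_filter, Finset.mem_powerset]
  obtain ⟨E, hEs, hmin⟩ := Finset.exists_min_image s Finset.card (by
    obtain ⟨E, hE, h'⟩ := h
    exact ⟨E, (hs E).2 ⟨hE, h'⟩⟩)
  obtain ⟨hEF, hEne, hEc, hEcut⟩ := (hs E).1 hEs
  refine ⟨E, hEF, hEne, hEc, connWithin_of_closed adj S E hEc ?_, hEcut⟩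
  intro E1 hE1 hne1 hcl
  by_contra hne
  have hss : E1 ⊂ E := hE1.ssubset_of_ne hne
  have hlt1 := Finset.card_lt_card hss
  have hss2 : E \ E1 ⊂ E := Finset.sdiff_ssubset hE1 hne1
  have hlt2 := Finset.card_lt_card hss2
  have hne2 : (E \ E1).Nonempty := by
    rw [Finset.nonempty_iff_ne_empty, Ne, Finset.sdiff_eq_empty_iff_subset]
    exact fun h => hne (hE1.antisymm h)
  have h1 : ε * ∑ g ∈ E1, μ g ≤
      ∑ g ∈ E1, ∑ g' ∈ (F' \ E1).filter (fun g' => adj g g'), min (μ g) (μ g') := by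
    by_contra hcon
    have := hmin E1 ((hs E1).2 ⟨hE1.trans hEF, hne1, by omega, not_le.1 hcon⟩)
    omega
  have h2 : ε * ∑ g ∈ E \ E1, μ g ≤
      ∑ g ∈ E \ E1, ∑ g' ∈ (F' \ (E \ E1)).filter (fun g' => adj g g'), min (μ g) (μ g') := by
    by_contra hcon
    have := hmin (E \ E1) ((hs _).2
      ⟨Finset.sdiff_subset.trans hEF, hne2, by omega, not_le.1 hcon⟩)
    omega
  have h3 : ∑ g ∈ E1, ∑ g' ∈ (F' \ E1).filter (fun g' => adj g g'), min (μ g) (μ g') =
      ∑ g ∈ E1, ∑ g' ∈ (F' \ E).filter (fun g' => adj g g'), min (μ g) (μ g') := by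
    refine Finset.sum_congr rfl fun g hg => Finset.sum_congr ?_ fun _ _ => rfl
    ext y
    simp only [Finset.mem_filter, Finset.mem_sdiff]
    constructor
    · rintro ⟨⟨h4, h5⟩, h6⟩
      exact ⟨⟨h4, fun h7 => h5 (hcl g hg y h7 h6)⟩, h6⟩
    · rintro ⟨⟨h4, h5⟩, h6⟩
      exact ⟨⟨h4, fun h7 => h5 (hE1 h7)⟩, h6⟩
  have h4 : ∑ g ∈ E \ E1, ∑ g' ∈ (F' \ (E \ E1)).filter (fun g' => adj g g'), min (μ g) (μ g') =
      ∑ g ∈ E \ E1, ∑ g' ∈ (F' \ E).filter (fun g' => adj g g'), min (μ g) (μ g') := by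
    refine Finset.sum_congr rfl fun g hg => Finset.sum_congr ?_ fun _ _ => rfl
    rw [Finset.mem_sdiff] at hg
    ext y
    simp only [Finset.mem_filter, Finset.mem_sdiff, not_and, not_not]
    constructor
    · rintro ⟨⟨h4, h5⟩, h6⟩
      exact ⟨⟨h4, fun h7 => hg.2 (hcl y (h5 h7) g hg.1 (hsymm _ _ h6))⟩, h6⟩
    · rintro ⟨⟨h4, h5⟩, h6⟩
      exact ⟨⟨h4, fun h7 => absurd h7 h5⟩, h6⟩
  rw [h3] at h1
  rw [h4] at h2
  have h5 := Finset.sum_sdiff hE1 (f := fun g => μ g)
  have h6 := Finset.sum_sdiff hE1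
    (f := fun g => ∑ g' ∈ (F' \ E).filter (fun g' => adj g g'), min (μ g) (μ g'))
  rw [← h5, ← h6, mul_add] at hEcut
  linarith

open Classical in
/-- greedy exhaustion of a finite subset -/
theorem exists_partition_aux {F : Type*} (adj : F → F → Prop)
    (hsymm : ∀ a b, adj a b → adj b a) (S : ℕ) (ε : ℝ)  (μ : F → ℝ)
    (hula : ∀ F' : Finset F, F'.Nonempty →
      ∃ E ⊆ F', E.Nonempty ∧ E.card ≤ S ∧
        ∑ g ∈ E, ∑ g' ∈ (F' \ E).filter (fun g' => adj g g'), min (μ g) (μ g')
          < ε * ∑ g ∈ E, μ g)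
    (w : F → F → ℝ) (hwμ : ∀ a b, adj a b → w a b + w b a ≤ min (μ a) (μ b)) (n : ℕ) :
    ∀ F' : Finset F, F'.card ≤ n →
    ∃ c : F → F, (∀ a ∈ F', c a ∈ F') ∧ (∀ E ⊆ F', (∀ a ∈ E, ∀ b ∈ E, c a = c b) →
        (∀ a ∈ E, ∀ b ∈ F', c b = c a → b ∈ E) → E.card ≤ S ∧ ConnWithin adj S E) ∧
      ∑ a ∈ F', ∑ b ∈ F'.filter (fun b => adj a b ∧ c a ≠ c b), w a b ≤ ε * ∑ a ∈ F', μ a := by
  induction n with
  | zero =>
    intro F' hF'
    have : F' = ∅ := Finset.card_eq_zero.1 (by omega)
    subst this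
    refine ⟨id, by simp, ?_, by simp⟩
    intro E hE _ _
    have : E = ∅ := Finset.subset_empty.1 hE
    subst this
    refine ⟨by simp, ?_⟩
    intro g hg
    simp at hg
  | succ n ih =>
    intro F' hF'
    rcases F'.eq_empty_or_nonempty with rfl | hne
    · exact ih ∅ (by simp)
    obtain ⟨E, hEF, hEne, hEc, hEconn, hEcut⟩ :=
      exists_connected adj hsymm S ε F' μ (hula F' hne)
    have hlt : (F' \ E).card < F'.card := Finset.card_lt_card (Finset.sdiff_ssubset hEF hEne)
    obtain ⟨c', hc1, hc2, hc3⟩ := ih (F' \ E) (by omega)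
    obtain ⟨e0, he0⟩ := hEne
    let c : F → F := fun x => if x ∈ E then e0 else c' x
    have hcE : ∀ x ∈ E, c x = e0 := fun x hx => by simp only [c, hx, if_true]
    have hcE' : ∀ x, x ∉ E → c x = c' x := fun x hx => by simp only [c, hx, if_false]
    have hcne : ∀ x ∈ F', x ∉ E → c x ≠ e0 := by
      intro x hx hxE h
      rw [hcE' x hxE] at h
      have h1 := hc1 x (Finset.mem_sdiff.2 ⟨hx, hxE⟩)
      rw [h] at h1
      exact (Finset.mem_sdiff.1 h1).2 he0
    refine ⟨c, ?_, ?_, ?_⟩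
    · intro a ha
      by_cases haE : a ∈ E
      · rw [hcE a haE]; exact hEF he0
      · rw [hcE' a haE]
        exact (Finset.mem_sdiff.1 (hc1 a (Finset.mem_sdiff.2 ⟨ha, haE⟩))).1
    · intro E0 hE0 h1 h2
      rcases E0.eq_empty_or_nonempty with rfl | ⟨a, ha⟩
      · refine ⟨by simp, ?_⟩
        intro g hg
        simp at hg
      by_cases haE : a ∈ E
      · have h3 : E0 = E := by
          ext b
          constructor
          · intro hb
            by_contra hbE
            exact hcne b (hE0 hb) hbE ((h1 b hb a ha).trans (hcE a haE))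
          · intro hb
            exact h2 a ha b (hEF hb) ((hcE b hb).trans (hcE a haE).symm)
        rw [h3]
        exact ⟨hEc, hEconn⟩
      · have h3 : ∀ b ∈ E0, b ∉ E := by
          intro b hb hbE
          exact hcne a (hE0 ha) haE ((h1 a ha b hb).trans (hcE b hbE))
        apply hc2 E0
        · intro b hb
          exact Finset.mem_sdiff.2 ⟨hE0 hb, h3 b hb⟩
        · intro b hb d hd
          rw [← hcE' b (h3 b hb), ← hcE' d (h3 d hd)]
          exact h1 b hb d hd
        · intro b hb d hd hdb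
          obtain ⟨hd1, hd2⟩ := Finset.mem_sdiff.1 hd
          rw [← hcE' b (h3 b hb), ← hcE' d hd2] at hdb
          exact h2 b hb d hd1 hdb
    · -- the sum
      have hsplit : ∀ f : F → ℝ, ∑ a ∈ F', f a = ∑ a ∈ F' \ E, f a + ∑ a ∈ E, f a := fun f =>
        (Finset.sum_sdiff hEF).symm
      have hfil : ∀ a, ∑ b ∈ F'.filter (fun b => adj a b ∧ c a ≠ c b), w a b =
          ∑ b ∈ (F' \ E).filter (fun b => adj a b ∧ c a ≠ c b), w a b +
          ∑ b ∈ E.filter (fun b => adj a b ∧ c a ≠ c b), w a b := by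
        intro a
        rw [Finset.sum_filter, Finset.sum_filter, Finset.sum_filter, hsplit]
      rw [hsplit, hsplit (fun a => μ a)]
      -- first part : a outside E
      have h1 : ∑ a ∈ F' \ E, ∑ b ∈ F'.filter (fun b => adj a b ∧ c a ≠ c b), w a b =
          ∑ a ∈ F' \ E, ∑ b ∈ (F' \ E).filter (fun b => adj a b ∧ c' a ≠ c' b), w a b +
          ∑ a ∈ F' \ E, ∑ b ∈ E.filter (fun b => adj a b), w a b := by
        rw [← Finset.sum_add_distrib]
        refine Finset.sum_congr rfl fun a ha => ?_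
        obtain ⟨ha1, ha2⟩ := Finset.mem_sdiff.1 ha
        rw [hfil]
        congr 1
        · refine Finset.sum_congr ?_ fun _ _ => rfl
          refine Finset.filter_congr fun b hb => ?_
          obtain ⟨hb1, hb2⟩ := Finset.mem_sdiff.1 hb
          rw [hcE' a ha2, hcE' b hb2]
        · refine Finset.sum_congr ?_ fun _ _ => rfl
          refine Finset.filter_congr fun b hb => ?_
          rw [hcE b hb]
          exact and_iff_left (hcne a ha1 ha2)
      have h2 : ∑ a ∈ E, ∑ b ∈ F'.filter (fun b => adj a b ∧ c a ≠ c b), w a b =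
          ∑ a ∈ E, ∑ b ∈ (F' \ E).filter (fun b => adj a b), w a b := by
        refine Finset.sum_congr rfl fun a ha => ?_
        rw [hfil]
        have h3 : E.filter (fun b => adj a b ∧ c a ≠ c b) = ∅ := by
          rw [Finset.filter_eq_empty_iff]
          intro b hb h4
          exact h4.2 ((hcE a ha).trans (hcE b hb).symm)
        rw [h3, Finset.sum_empty, add_zero]
        refine Finset.sum_congr ?_ fun _ _ => rfl
        refine Finset.filter_congr fun b hb => ?_
        obtain ⟨hb1, hb2⟩ := Finset.mem_sdiff.1 hb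
        rw [hcE a ha]
        exact and_iff_left (hcne b hb1 hb2).symm
      have h3 : ∑ a ∈ F' \ E, ∑ b ∈ E.filter (fun b => adj a b), w a b =
          ∑ a ∈ E, ∑ b ∈ (F' \ E).filter (fun b => adj a b), w b a := by
        simp only [Finset.sum_filter]
        rw [Finset.sum_comm]
        refine Finset.sum_congr rfl fun a _ => Finset.sum_congr rfl fun b _ => ?_
        have h4 : adj b a ↔ adj a b := ⟨hsymm b a, hsymm a b⟩
        simp only [h4]
      have h4 : ∑ a ∈ E, ∑ b ∈ (F' \ E).filter (fun b => adj a b), w a b +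
          ∑ a ∈ E, ∑ b ∈ (F' \ E).filter (fun b => adj a b), w b a ≤
          ∑ g ∈ E, ∑ g' ∈ (F' \ E).filter (fun g' => adj g g'), min (μ g) (μ g') := by
        rw [← Finset.sum_add_distrib]
        refine Finset.sum_le_sum fun a _ => ?_
        rw [← Finset.sum_add_distrib]
        refine Finset.sum_le_sum fun b hb => ?_
        exact hwμ a b (Finset.mem_filter.1 hb).2
      rw [h1, h2, h3, mul_add]
      linarith

end PT1

open Classical in
/-- PT1: greedy exhaustion -/
theorem exists_partition {F : Type*} [Fintype F] (adj : F → F → Prop)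
    (hsymm : ∀ a b, adj a b → adj b a) (hirr : ∀ a, ¬ adj a a) (S : ℕ) (ε : ℝ) (hε : 0 < ε)
    (hula : ∀ F' : Finset F, F'.Nonempty → ∀ μ : F → ℝ, (∀ g, 0 < μ g) →
      ∃ E ⊆ F', E.Nonempty ∧ E.card ≤ S ∧
        ∑ g ∈ E, ∑ g' ∈ (F' \ E).filter (fun g' => adj g g'), min (μ g) (μ g')
          < ε * ∑ g ∈ E, μ g)
    (w : F → F → ℝ) (hw : ∀ a b, 0 ≤ w a b) :
    ∃ c : F → F, (∀ E : Finset F, (∀ a ∈ E, ∀ b ∈ E, c a = c b) →
        (∀ a ∈ E, ∀ b, c b = c a → b ∈ E) → E.card ≤ S ∧ ConnWithin adj S E) ∧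
      ∑ a, ∑ b ∈ Finset.univ.filter (fun b => adj a b ∧ c a ≠ c b), w a b
        ≤ 3 * ε * ∑ a, ∑ b ∈ Finset.univ.filter (fun b => adj a b), w a b := by
  set W : ℝ := ∑ a, ∑ b ∈ Finset.univ.filter (fun b => adj a b), w a b with hW
  have hW0 : 0 ≤ W := Finset.sum_nonneg fun a _ => Finset.sum_nonneg fun b _ => hw a b
  let δ : ℝ := if W = 0 then 1 else W / (Fintype.card F + 1)
  have hδ : 0 < δ := by
    by_cases h : W = 0
    · simp only [δ, h, if_true]; exact one_pos
    · simp only [δ, h, if_false]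
      have : 0 < W := lt_of_le_of_ne hW0 (Ne.symm h)
      positivity
  let μ : F → ℝ := fun a =>
    ∑ b ∈ Finset.univ.filter (fun b => adj a b), (w a b + w b a) + δ
  have hμ : ∀ a, 0 < μ a := fun a => by
    have : 0 ≤ ∑ b ∈ Finset.univ.filter (fun b => adj a b), (w a b + w b a) :=
      Finset.sum_nonneg fun b _ => add_nonneg (hw a b) (hw b a)
    simp only [μ]; linarith
  have hle : ∀ a b, adj a b → w a b + w b a ≤ μ a := by
    intro a b hab
    have h1 : w a b + w b a ≤ ∑ b ∈ Finset.univ.filter (fun b => adj a b), (w a b + w b a) :=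
      Finset.single_le_sum (f := fun b => w a b + w b a)
        (fun b _ => add_nonneg (hw a b) (hw b a)) (by simp [hab])
    simp only [μ]; linarith
  have hwμ : ∀ a b, adj a b → w a b + w b a ≤ min (μ a) (μ b) := by
    intro a b hab
    refine le_min (hle a b hab) ?_
    rw [add_comm]
    exact hle b a (hsymm a b hab)
  obtain ⟨c, _, hc2, hc3⟩ := PT1.exists_partition_aux adj hsymm S ε μ
    (fun F' hF' => hula F' hF' μ hμ) w hwμ (Fintype.card F) Finset.univ (by simp)
  refine ⟨c, fun E h1 h2 => hc2 E (Finset.subset_univ E) h1 fun a ha b _ hb => h2 a ha b hb, ?_⟩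
  have hsum : ∑ a, μ a = 2 * W + Fintype.card F * δ := by
    simp only [μ, Finset.sum_add_distrib, Finset.sum_const, Finset.card_univ, nsmul_eq_mul]
    have h1 : ∑ a, ∑ b ∈ Finset.univ.filter (fun b => adj a b), w b a = W := by
      rw [hW]
      simp only [Finset.sum_filter]
      rw [Finset.sum_comm]
      refine Finset.sum_congr rfl fun a _ => Finset.sum_congr rfl fun b _ => ?_
      have h4 : adj b a ↔ adj a b := ⟨hsymm b a, hsymm a b⟩
      simp only [h4]
    rw [h1, ← hW]
    ring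
  by_cases h : W = 0
  · rw [h, mul_zero]
    have h1 : ∑ a, ∑ b ∈ Finset.univ.filter (fun b => adj a b ∧ c a ≠ c b), w a b ≤ W := by
      rw [hW]
      refine Finset.sum_le_sum fun a _ => ?_
      apply Finset.sum_le_sum_of_subset_of_nonneg
      · intro b hb
        simp only [Finset.mem_filter, Finset.mem_univ, true_and] at hb ⊢
        exact hb.1
      · intro b _ _
        exact hw a b
    linarith
  · have hWpos : 0 < W := lt_of_le_of_ne hW0 (Ne.symm h)
    have hδ' : Fintype.card F * δ ≤ W := by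
      simp only [δ, h, if_false]
      rw [mul_div_assoc', div_le_iff₀ (by positivity)]
      nlinarith
    calc _ ≤ ε * ∑ a, μ a := hc3
      _ ≤ ε * (3 * W) := by
        apply mul_le_mul_of_nonneg_left _ hε.le
        rw [hsum]; linarith
      _ = 3 * ε * W := by ring

end Pool.Agent.KW
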